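import Pool.Agent.helper56.SG.SpecG

/-!
# Project sg (MP_2b8aea_gt), module LFI: local finiteness
-/

set_option autoImplicit false

open MeasureTheory Set Metric Filter Topology
open scoped ENNReal NNReal ComplexConjugate
open Pool.Agent.SG

noncomputable section

namespace Pool.Agent.SGG

theorem LFI (hMOB : MOB_stmt) (hACT : ACT_stmt) (hPPF : PPF_stmt) : LFI_stmt := by
  intro Γ _ A hD ρ ρ' hρ hρ'
  obtain ⟨hp1, -, hp3, -, hp5⟩ := hPPF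
  have hr1 : max ρ 0 < 1 := max_lt hρ one_pos
  have hr0 : 0 ≤ max ρ 0 := le_max_right _ _
  have hr1' : max ρ' 0 < 1 := max_lt hρ' one_pos
  have ht : 0 < (1 - max ρ 0 ^ 2) / 2 := by nlinarith
  obtain ⟨σ, -, hσ1, hσ⟩ := hp5 ((1 - max ρ 0 ^ 2) / 2) (max ρ' 0) ht (le_max_right _ _) hr1'
  refine (hD σ hσ1).subset ?_
  rintro γ ⟨z, hz, hγz⟩
  have h0 : (0 : ℂ) ∈ ball (0 : ℂ) 1 := mem_ball_self one_pos
  have hz1 : ‖z‖ ≤ max ρ 0 := hz.trans (le_max_left _ _)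
  have hzb : z ∈ ball (0 : ℂ) 1 := by
    rw [mem_ball_zero_iff]
    exact hz1.trans_lt hr1
  have hM := (hACT Γ A z hzb).1 γ
  have hM0 := (hACT Γ A 0 h0).1 γ
  obtain ⟨-, -, -, -, -, -, -, hpp, -⟩ := hMOB _ _ hM.1
  have h1 : pp (A.act γ z) (A.act γ 0) = pp z 0 := hpp z hzb 0 h0
  have h2 : pp z 0 = 1 - ‖z‖ ^ 2 := by
    rw [(hp1 z hzb 0 h0).2.2.1, hp3]
  have h3 : ‖A.act γ 0‖ < 1 := by
    have := hM0.2.1
    rwa [mem_ball_zero_iff] at this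
  refine hσ (A.act γ z) (A.act γ 0) (hγz.trans (le_max_left _ _)) h3 ?_
  rw [h1, h2]
  have h4 : ‖z‖ ^ 2 ≤ max ρ 0 ^ 2 := pow_le_pow_left₀ (norm_nonneg z) hz1 2
  linarith

end Pool.Agent.SGG
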