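import Pool.Agent.helper56.SG.SpecG

/-!
# Project sg (MP_2b8aea_gt), module SWP: an isometry exchanging two points
-/

set_option autoImplicit false

open MeasureTheory Set Metric Filter Topology
open scoped ENNReal NNReal ComplexConjugate
open Pool.Agent.SG

noncomputable section

namespace Pool.Agent.SGG

theorem SWP_mob (α : ℝ) (c x y : ℂ) (hα : α ≠ 0) (hd : conj c * x - 1 ≠ 0)
    (h : c + x * y * conj c = x + y) :
    mob (Complex.I * α) (-(Complex.I * α * c)) x = y := by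
  unfold mob
  have h1 : conj (-(Complex.I * (α : ℂ) * c)) = Complex.I * α * conj c := by
    rw [map_neg, map_mul, map_mul, Complex.conj_I, Complex.conj_ofReal]
    ring
  have h2 : conj (Complex.I * (α : ℂ)) = -(Complex.I * α) := by
    rw [map_mul, Complex.conj_I, Complex.conj_ofReal]
    ring
  rw [h1, h2]
  have hα' : (α : ℂ) ≠ 0 := by exact_mod_cast hα
  have h3 : Complex.I * (α : ℂ) * conj c * x + -(Complex.I * α) =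
      Complex.I * α * (conj c * x - 1) := by ring
  have h4 : Complex.I * (α : ℂ) * x + -(Complex.I * α * c) = Complex.I * α * (x - c) := by ring
  rw [h3, h4]
  have h5 : Complex.I * (α : ℂ) * (conj c * x - 1) ≠ 0 :=
    mul_ne_zero (mul_ne_zero Complex.I_ne_zero hα') hd
  rw [div_eq_iff h5]
  have h6 : x - c = y * (conj c * x - 1) := by linear_combination -h
  rw [h6]
  ring

theorem SWP : SWP_stmt := by
  intro x hx y hy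
  rw [mem_ball_zero_iff] at hx hy
  have hp0 := norm_nonneg x
  have hq0 := norm_nonneg y
  have hpq : ‖x‖ * ‖y‖ < 1 := by nlinarith
  have hD : 0 < 1 - ‖x‖ ^ 2 * ‖y‖ ^ 2 := by
    have : 0 ≤ ‖x‖ * ‖y‖ := by positivity
    nlinarith
  obtain ⟨c, hc⟩ : ∃ c : ℂ, c = (x * (1 - (‖y‖ : ℂ) ^ 2) + y * (1 - (‖x‖ : ℂ) ^ 2)) /
      (1 - (‖x‖ : ℂ) ^ 2 * (‖y‖ : ℂ) ^ 2) := ⟨_, rfl⟩
  have hDc : (1 - (‖x‖ : ℂ) ^ 2 * (‖y‖ : ℂ) ^ 2) ≠ 0 := by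
    have : (((1 - ‖x‖ ^ 2 * ‖y‖ ^ 2 : ℝ)) : ℂ) ≠ 0 := by exact_mod_cast hD.ne'
    push_cast at this
    exact this
  have hcD : c * (1 - (‖x‖ : ℂ) ^ 2 * (‖y‖ : ℂ) ^ 2) =
      x * (1 - (‖y‖ : ℂ) ^ 2) + y * (1 - (‖x‖ : ℂ) ^ 2) := by
    rw [hc, div_mul_cancel₀ _ hDc]
  have hcD' : conj c * (1 - (‖x‖ : ℂ) ^ 2 * (‖y‖ : ℂ) ^ 2) =
      conj x * (1 - (‖y‖ : ℂ) ^ 2) + conj y * (1 - (‖x‖ : ℂ) ^ 2) := by
    have h := congrArg (starRingEnd ℂ) hcD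
    simp only [map_mul, map_add, map_sub, map_one, map_pow, Complex.conj_ofReal] at h
    exact h
  have hxx : x * conj x = (‖x‖ : ℂ) ^ 2 := Complex.mul_conj' x
  have hyy : y * conj y = (‖y‖ : ℂ) ^ 2 := Complex.mul_conj' y
  have hkey : c + x * y * conj c = x + y := by
    apply mul_right_cancel₀ hDc
    calc (c + x * y * conj c) * (1 - (‖x‖ : ℂ) ^ 2 * (‖y‖ : ℂ) ^ 2)
        = c * (1 - (‖x‖ : ℂ) ^ 2 * (‖y‖ : ℂ) ^ 2) +
          x * y * (conj c * (1 - (‖x‖ : ℂ) ^ 2 * (‖y‖ : ℂ) ^ 2)) := by ring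
      _ = (x * (1 - (‖y‖ : ℂ) ^ 2) + y * (1 - (‖x‖ : ℂ) ^ 2)) +
          ((x * conj x) * y * (1 - (‖y‖ : ℂ) ^ 2) + (y * conj y) * x * (1 - (‖x‖ : ℂ) ^ 2)) := by
          rw [hcD, hcD']
          ring
      _ = (x + y) * (1 - (‖x‖ : ℂ) ^ 2 * (‖y‖ : ℂ) ^ 2) := by
          rw [hxx, hyy]
          ring
  have hcn : ‖c‖ < 1 := by
    have h1 : ‖c‖ * (1 - ‖x‖ ^ 2 * ‖y‖ ^ 2) ≤ ‖x‖ * (1 - ‖y‖ ^ 2) + ‖y‖ * (1 - ‖x‖ ^ 2) := by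
      have h2 : ‖c * (1 - (‖x‖ : ℂ) ^ 2 * (‖y‖ : ℂ) ^ 2)‖ = ‖c‖ * (1 - ‖x‖ ^ 2 * ‖y‖ ^ 2) := by
        rw [norm_mul]
        congr 1
        rw [show (1 - (‖x‖ : ℂ) ^ 2 * (‖y‖ : ℂ) ^ 2) = ((1 - ‖x‖ ^ 2 * ‖y‖ ^ 2 : ℝ) : ℂ) by
          push_cast; ring, Complex.norm_real, Real.norm_eq_abs, abs_of_pos hD]
      rw [← h2, hcD]
      refine (norm_add_le _ _).trans ?_
      rw [norm_mul, norm_mul]
      have h3 : ‖(1 - (‖y‖ : ℂ) ^ 2)‖ = 1 - ‖y‖ ^ 2 := by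
        rw [show (1 - (‖y‖ : ℂ) ^ 2) = ((1 - ‖y‖ ^ 2 : ℝ) : ℂ) by push_cast; ring,
          Complex.norm_real, Real.norm_eq_abs, abs_of_pos (by nlinarith)]
      have h4 : ‖(1 - (‖x‖ : ℂ) ^ 2)‖ = 1 - ‖x‖ ^ 2 := by
        rw [show (1 - (‖x‖ : ℂ) ^ 2) = ((1 - ‖x‖ ^ 2 : ℝ) : ℂ) by push_cast; ring,
          Complex.norm_real, Real.norm_eq_abs, abs_of_pos (by nlinarith)]
      rw [h3, h4]
    have h2 : ‖x‖ * (1 - ‖y‖ ^ 2) + ‖y‖ * (1 - ‖x‖ ^ 2) < 1 - ‖x‖ ^ 2 * ‖y‖ ^ 2 := by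
      have h3 : 0 < (1 - ‖x‖ * ‖y‖) * ((1 - ‖x‖) * (1 - ‖y‖)) :=
        mul_pos (by linarith) (mul_pos (by linarith) (by linarith))
      nlinarith
    have h3 : ‖c‖ * (1 - ‖x‖ ^ 2 * ‖y‖ ^ 2) < 1 * (1 - ‖x‖ ^ 2 * ‖y‖ ^ 2) := by linarith
    exact lt_of_mul_lt_mul_right h3 hD.le
  have hden : ∀ z : ℂ, ‖z‖ < 1 → conj c * z - 1 ≠ 0 := by
    intro z hz h
    have h1 : conj c * z = 1 := sub_eq_zero.1 h
    have h2 : ‖conj c * z‖ = 1 := by rw [h1, norm_one]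
    rw [norm_mul, Complex.norm_conj] at h2
    have := norm_nonneg c
    have := norm_nonneg z
    nlinarith
  have hc2 : 0 < 1 - ‖c‖ ^ 2 := by
    have := norm_nonneg c
    nlinarith
  obtain ⟨α, hα⟩ : ∃ α : ℝ, α = (Real.sqrt (1 - ‖c‖ ^ 2))⁻¹ := ⟨_, rfl⟩
  have hs : 0 < Real.sqrt (1 - ‖c‖ ^ 2) := Real.sqrt_pos.2 hc2
  have hα0 : 0 < α := by rw [hα]; exact inv_pos.2 hs
  have hα2 : α ^ 2 * (1 - ‖c‖ ^ 2) = 1 := by
    rw [hα, inv_pow, Real.sq_sqrt hc2.le, inv_mul_cancel₀ hc2.ne']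
  refine ⟨Complex.I * α, -(Complex.I * α * c), ?_, ?_, ?_⟩
  · unfold IsoM
    rw [norm_neg, norm_mul, norm_mul, norm_mul, Complex.norm_I, Complex.norm_real,
      Real.norm_eq_abs, abs_of_pos hα0]
    linear_combination hα2
  · exact SWP_mob α c x y hα0.ne' (hden x hx) hkey
  · refine SWP_mob α c y x hα0.ne' (hden y hy) ?_
    linear_combination hkey

end Pool.Agent.SGG
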