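import Pool.Agent.helper68.SG.SpecT

/-!
# Project sg (MP_2b8aea_gt), module T04: surface groups are torsion free
-/

set_option autoImplicit false

open MeasureTheory Set Metric Filter Topology
open scoped ENNReal NNReal ComplexConjugate commutatorElement

namespace Pool.Agent.SG

theorem T04_free (α : Type) : TF (FreeGroup α) := by
  intro g n hn h
  have h1 := IsMulTorsionFree.pow_left_injective (M := FreeGroup α) hn.ne'
  exact h1 (show g ^ n = 1 ^ n by rw [h, one_pow])

theorem T04 (h01 : T01_stmt) (h03 : T03_stmt) : T04_stmt := by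
  intro g hg
  obtain ⟨k, rfl⟩ : ∃ k, g = k + 1 := ⟨g - 1, by omega⟩
  obtain ⟨A, B, φ, f, hf⟩ := h03 k
  have h1 := h01 (FreeGroup (Gen1 k)) A B φ (T04_free _)
  intro x n hn hx
  apply hf
  rw [map_one]
  exact h1 (f x) n hn (by rw [← map_pow, hx, map_one])

end Pool.Agent.SG
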