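import Pool.Agent.helper24.SG.SpecD

/-!
# Project sg (MP_2b8aea_gt), module D15: one representation
-/

set_option autoImplicit false

open MeasureTheory Set Metric Filter Topology
open scoped ENNReal NNReal ComplexConjugate

namespace Pool.Agent.SG

theorem D15 (h11 : D11_stmt) (h12 : D12_stmt) (h13 : D13_stmt) (h14 : D14_stmt) (h03 : B03_stmt) :
    D15_stmt := by
  intro Γ _ _ A W ν hS hD hat hsing herg
  have := hS.prob
  have hne : W.S.Nonempty := by
    rw [Finset.nonempty_iff_ne_empty]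
    intro h
    have := W.sum
    rw [h, Finset.sum_empty] at this
    exact zero_ne_one this
  obtain ⟨ρ, hρ, hρ1, hρb⟩ := h14 ν (1 / 8) inferInstance (by simp) hat
  obtain ⟨hkk, -⟩ := h03 Γ A
  set κ : ℝ := W.S.inf' hne A.kk with hκ
  have hκ0 : 0 < κ := by
    rw [hκ, Finset.lt_inf'_iff]
    exact fun s _ => (hkk s).1
  have hκs : ∀ s ∈ W.S, κ ≤ A.kk s := fun s hs => Finset.inf'_le _ hs
  obtain ⟨ε₀, hε₀, h⟩ := h11 κ ρ (fun τ => {γ | τ ≤ A.kk γ}.ncard) hκ0 hρ hρ1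
  obtain ⟨m, c, r, hr, hrs, hU⟩ := h12 ν hS.prob hS.supp hsing ε₀ hε₀
  obtain ⟨δ, hδ0, hδ1, h⟩ := h m
  obtain ⟨B, hB, hB1, hB2⟩ := h Γ A W ν c r hS hD hκs (fun τ _ => le_refl _) hρb
    (fun l => (hr l).le) hrs (hU.le.trans (measure_mono (iUnion_mono fun l => ball_subset_closedBall)))
  obtain ⟨B', hB', hBc, hBν, hinv, hdim⟩ := h13 Γ A ν B hD hS.supp hB
  refine ⟨δ, hδ0, hδ1, B', hB', ?_, hdim.trans hB2⟩
  rcases herg B' hB' hinv with h0 | h1
  · exfalso
    have h2 : (1 / 2 : ℝ≥0∞) ≤ 0 := by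
      rw [← h0]
      exact hB1.trans hBν
    simp at h2
  · exact h1

end Pool.Agent.SG
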