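import Pool.Agent.helper80.SG.Spec

/-!
# Project sg (MP_b5a345_ag), module KIM
-/

set_option autoImplicit false
set_option linter.unusedSectionVars false

namespace Pool.Agent.SG

open MvPolynomial Module Pool.Agent.SV

theorem KIM (hEUL : EUL_stmt) : KIM_stmt := by
  intro ι κ _ _ _ _ c T d hd ρ P
  obtain ⟨k, hk⟩ := hd
  intro f hf
  rw [LinearMap.mem_ker] at hf ⊢
  have h1 : ∀ (a : Fin 3) (i : ι), eval (ptc c T a P) (pderiv i (f : MvPolynomial ι ℂ)) = 0 := by
    intro a i
    have h := congrFun hf (a, i)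
    rw [PhiC_apply, if_neg (by simp)] at h
    exact h
  have h2 : ∀ a : Fin 3, eval (ptc c T a P) (f : MvPolynomial ι ℂ) = 0 := by
    intro a
    have h := hEUL c Finset.univ d (f : MvPolynomial ι ℂ) f.2 k (ptc c T a P)
    rw [Finset.sum_eq_zero (fun i _ => by rw [h1 a i, mul_zero])] at h
    have hk0 : (d k : ℂ) ≠ 0 := by
      have : d k ≠ 0 := by omega
      exact_mod_cast this
    exact (mul_eq_zero.1 h.symm).resolve_left hk0
  have h3 : ptc c T 0 P = P.1 := by
    funext i
    unfold ptc
    simp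
  funext o
  have h4 : roleS c T d ρ P f o = (if used ρ o then roleF c T P o else 0) (f : MvPolynomial ι ℂ) := rfl
  rw [h4]
  split_ifs with hu
  · rcases o with _ | ⟨a, _ | i⟩
    · show tgtL c T P (f : MvPolynomial ι ℂ) = 0
      rw [tgtL_apply]
      refine Finset.sum_eq_zero fun i _ => ?_
      rw [← h3, h1 0 i, mul_zero]
    · show fnl (ptc c T a P) none (f : MvPolynomial ι ℂ) = 0
      rw [fnl_none, h2]
    · show fnl (ptc c T a P) (some i) (f : MvPolynomial ι ℂ) = 0
      rw [fnl_some, h1]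
  · rfl

end Pool.Agent.SG
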